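import Pool.Agent.S04750

/-! # MP_44758c_an: a Baire measurable probability measure outside the sequential closure

There is a compact Hausdorff space `K` such that every continuous linear functional on `C(K)` is
measurable for the Baire sigma-algebra of the pointwise topology, while some probability measure on
`K` is not in the weak* sequential closure of the finitely supported probability measures. -/

set_option autoImplicit false

namespace Pool.Agent.Results.MP_44758c_an.MeasurableOutsideSeq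

/-- The Baire sigma-algebra of a topology: generated by the continuous real functions. -/
def Ba (X : Type) (t : TopologicalSpace X) : MeasurableSpace X :=
  ⨆ (g : X → ℝ) (_ : @Continuous X ℝ t _ g), MeasurableSpace.comap g (borel ℝ)

/-- The topology of pointwise convergence on `C(K)`. -/
def ptw (K : Type) [TopologicalSpace K] : TopologicalSpace C(K, ℝ) :=
  TopologicalSpace.induced (fun (f : C(K, ℝ)) (x : K) => f x) inferInstance

/-- The weak topology of the Banach space `C(K)`. -/
def wk (K : Type) [TopologicalSpace K] [CompactSpace K] : TopologicalSpace C(K, ℝ) :=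
  ⨅ (φ : C(K, ℝ) →L[ℝ] ℝ), TopologicalSpace.induced (⇑φ) inferInstance

/-- The Dirac measures, as functionals on `C(K)`. -/
def Dir (K : Type) [TopologicalSpace K] [CompactSpace K] : Set (C(K, ℝ) →L[ℝ] ℝ) :=
  {φ | ∃ x : K, ∀ f : C(K, ℝ), φ f = f x}

/-- A set of functionals closed under limits of weak*-convergent sequences. -/
def SeqClosed {K : Type} [TopologicalSpace K] [CompactSpace K] (S : Set (C(K, ℝ) →L[ℝ] ℝ)) : Prop :=
  ∀ (u : ℕ → C(K, ℝ) →L[ℝ] ℝ) (φ : C(K, ℝ) →L[ℝ] ℝ), (∀ n, u n ∈ S) →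
    (∀ f : C(K, ℝ), Filter.Tendsto (fun n => u n f) Filter.atTop (nhds (φ f))) → φ ∈ S

/-- The weak* sequential closure: the smallest weak* sequentially closed set containing `A`. -/
def Seq {K : Type} [TopologicalSpace K] [CompactSpace K] (A : Set (C(K, ℝ) →L[ℝ] ℝ)) :
    Set (C(K, ℝ) →L[ℝ] ℝ) :=
  ⋂₀ {S | A ⊆ S ∧ SeqClosed S}

/-- The probability measures, as positive functionals with value `1` at `1` (Riesz). -/
def Prob (K : Type) [TopologicalSpace K] [CompactSpace K] : Set (C(K, ℝ) →L[ℝ] ℝ) :=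
  {φ | (∀ f : C(K, ℝ), 0 ≤ f → 0 ≤ φ f) ∧ φ 1 = 1}

/-- `Seq A` is contained in `Prob K` for `A` the convex hull of the Dirac measures. -/
theorem Seq_sub (K : Type) [TopologicalSpace K] [CompactSpace K] :
    Seq (convexHull ℝ (Dir K)) ⊆ Prob K := by
  intro φ hφ
  refine hφ (Prob K) ⟨?_, ?_⟩
  · apply convexHull_min
    · rintro ψ ⟨x, hx⟩
      exact ⟨fun f hf => by rw [hx]; exact hf x, by rw [hx]; rfl⟩
    · rintro ψ ⟨h1, h2⟩ χ ⟨h3, h4⟩ a b ha hb hab
      refine ⟨fun f hf => ?_, ?_⟩
      · change 0 ≤ a * ψ f + b * χ f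
        exact add_nonneg (mul_nonneg ha (h1 f hf)) (mul_nonneg hb (h3 f hf))
      · change a * ψ 1 + b * χ 1 = 1
        rw [h2, h4, mul_one, mul_one, hab]
  · intro u ψ hu hlim
    refine ⟨fun f hf => ge_of_tendsto' (hlim f) (fun n => (hu n).1 f hf), ?_⟩
    have h := hlim 1
    have h2 : (fun n => u n (1 : C(K, ℝ))) = fun _ => (1 : ℝ) := funext fun n => (hu n).2
    rw [h2] at h
    exact (tendsto_nhds_unique h tendsto_const_nhds)

/-- There are a compact Hausdorff space `K` and a probability measure `μ` on `K` that is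
`Ba(C_p(K))`-measurable (indeed every functional on `C(K)` is) but does not belong to
`Seq (co Δ_K)`. -/
theorem result :
    ∃ (K : Type) (_ : TopologicalSpace K) (_ : CompactSpace K) (_ : T2Space K),
      (∀ φ : C(K, ℝ) →L[ℝ] ℝ, @Measurable C(K, ℝ) ℝ (Ba _ (ptw K)) (borel ℝ) φ) ∧
      ∃ μ ∈ Prob K, @Measurable C(K, ℝ) ℝ (Ba _ (ptw K)) (borel ℝ) μ ∧
        μ ∉ Seq (convexHull ℝ (Dir K)) := by
  by_contra hcon
  apply Pool.Agent.S04750.result
  intro K _ _ _ hK
  have hmeas : ∀ φ : C(K, ℝ) →L[ℝ] ℝ, @Measurable C(K, ℝ) ℝ (Ba _ (ptw K)) (borel ℝ) φ := by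
    intro φ
    have h1 : @Continuous C(K, ℝ) ℝ (wk K) _ (φ : C(K, ℝ) → ℝ) :=
      continuous_iInf_dom (i := φ) continuous_induced_dom
    have h2 : MeasurableSpace.comap (φ : C(K, ℝ) → ℝ) (borel ℝ) ≤ Ba _ (wk K) :=
      le_iSup₂_of_le (f := fun (g : C(K, ℝ) → ℝ) (_ : @Continuous C(K, ℝ) ℝ (wk K) _ g) =>
        MeasurableSpace.comap g (borel ℝ)) (φ : C(K, ℝ) → ℝ) h1 le_rfl
    have h3 : Ba _ (ptw K) = Ba _ (wk K) := hK
    rw [← h3] at h2
    exact (@measurable_iff_comap_le _ _ (Ba _ (ptw K)) (borel ℝ) _).2 h2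
  by_contra hne
  apply hcon
  refine ⟨K, inferInstance, inferInstance, inferInstance, hmeas, ?_⟩
  by_contra hno
  apply hne
  have heq : Seq (convexHull ℝ (Dir K)) = Prob K := by
    apply Set.Subset.antisymm (Seq_sub K)
    intro φ hφ
    by_contra hnot
    exact hno ⟨φ, hφ, hmeas φ, hnot⟩
  exact heq

end Pool.Agent.Results.MP_44758c_an.MeasurableOutsideSeq
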